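import Pool.Agent.Helper25.EC.AL
import Pool.Agent.Helper82.TP.Base

/-! AGREEMENT = LITERAL FUNCTIONS. A function whose two copies over a variable `V` agree up to the level `r` is, up to
the level `r`, a literal function of `V` (and of the base). Literal functions under extensions and restrictions. -/

set_option autoImplicit false

namespace Pool.Agent.Helper62.UR

open Finset Filter Topology Pool.Agent.Helper69.RK Pool.Agent.Helper31.EC Pool.Agent.Helper82.TP
open Pool.Agent.Helper25.EC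

noncomputable section

open Sp QS

variable {S : Sp} {α : ℕ → Type} {V : ∀ k, (S.F k).Ω → α k}

theorem two_supp (V : ∀ k, (S.F k).Ω → α k) (k : ℕ) (w : ((two V).F k).Ω) (h : ((two V).F k).μ w ≠ 0) :
    V k ((two1 V).π k w) = V k ((two2 V).π k w) ∧ (S.F k).Z ((two1 V).π k w) ((two2 V).π k w) := by
  have h1 := (((Pj.id S).join V).supp k w h).1
  have h2 : (V k w.1, Quotient.mk (S.F k).Z w.1) = (V k w.2, Quotient.mk (S.F k).Z w.2) := h1
  exact ⟨congrArg Prod.fst h2, Quotient.exact (congrArg Prod.snd h2)⟩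

/-- literal functions agree in two copies -/
theorem lit_two {g : QS S} (hg : Lit V g) : (two1 V).qs g = (two2 V).qs g := by
  obtain ⟨G, rfl, hG⟩ := hg
  rw [Pj.qs_mk, Pj.qs_mk]
  rw [mk_eq]
  apply TR.Te.ag
  refine ⟨fun _ _ => True, Typ_true, ?_⟩
  filter_upwards [hG] with k hk w hw _
  obtain ⟨h1, h2⟩ := two_supp V k w hw
  exact hk _ _ ((two1 V).supp k w hw) ((two2 V).supp k w hw) h2 h1

/-- clipping -/
theorem clip_sub (B a b : ℝ) : |max (-B) (min B a) - max (-B) (min B b)| ≤ |a - b| := by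
  have h1 := abs_max_sub_max_le_max (-B) (min B a) (-B) (min B b)
  have h2 := abs_min_sub_min_le_max B a B b
  rw [sub_self, abs_zero] at h1 h2
  exact h1.trans (max_le (abs_nonneg _) (h2.trans (max_le (abs_nonneg _) le_rfl)))

theorem clip_id {B a : ℝ} (h : |a| ≤ B) : max (-B) (min B a) = a := by
  rw [abs_le] at h
  rw [min_eq_right h.2, max_eq_right h.1]

/-- AGREEMENT => LITERAL. -/
theorem lit_of_two {g : QS S} {δ : ℝ} (h : (two1 V).qs g - (two2 V).qs g ∈ Id (two V) δ) :
    ∃ gV : QS S, Lit V gV ∧ g - gV ∈ Id S δ := by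
  obtain ⟨G, rfl⟩ := mk_surj g
  rw [Pj.qs_mk, Pj.qs_mk, ← map_sub, mk_mem_Id'] at h
  obtain ⟨E, K, hE, hK, hh⟩ := h
  obtain ⟨c, hc, hR⟩ := exists_rep V (fun k ω ω' => |TR.ev G k ω - TR.ev G k ω'| ≤ K k * S.dl (min δ 1) k)
  obtain ⟨B, hB, hGB⟩ := G.2
  let gV : TR S := ⟨fun k ω => max (-(B k)) (min (B k) (TR.ev G k (c k ω))), B, hB, by
    filter_upwards [hB.1] with k hk ω _
    rw [abs_le]
    exact ⟨le_max_left _ _, max_le (by linarith) (min_le_left _ _)⟩⟩
  refine ⟨mk gV, ⟨gV, rfl, Eventually.of_forall fun k ω ω' _ _ hZ hV => ?_⟩, ?_⟩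
  · show max (-(B k)) (min (B k) (TR.ev G k (c k ω))) = max (-(B k)) (min (B k) (TR.ev G k (c k ω')))
    rw [hc k ω ω' hV hZ]
  · rw [← map_sub, mk_mem_Id']
    refine ⟨fun k ω => |TR.ev G k ω - TR.ev G k (c k ω)| ≤ K k * S.dl (min δ 1) k, K, ?_, hK, ?_⟩
    · -- typical
      unfold Typ
      have h1 : Tendsto (fun k => mass (res ((two V).F k).μ (fun w => ¬ E k w))) UF (𝓝 0) := hE
      refine squeeze_zero' (Eventually.of_forall fun k => mass_res_nonneg k _) ?_ h1
      filter_upwards [hh] with k hk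
      refine (hR k).trans ?_
      apply ((two V).F k).pb_mono
      intro w hw hn he
      apply hn
      have h2 := hk w hw he
      rw [TR.ev_sub, TR.ev_zero, sub_zero] at h2
      exact h2
    · filter_upwards [hGB] with k hk ω hω hr
      rw [TR.ev_sub, TR.ev_zero, sub_zero]
      show |TR.ev G k ω - max (-(B k)) (min (B k) (TR.ev G k (c k ω)))| ≤ _
      have h2 := clip_sub (B k) (TR.ev G k ω) (TR.ev G k (c k ω))
      have h3 : max (-(B k)) (min (B k) (TR.ev G k ω)) = TR.ev G k ω := clip_id (hk ω hω)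
      rw [h3] at h2
      exact h2.trans hr

/-- literal functions in extensions -/
theorem lit_pull {T : Sp} (p : Pj T S) {g : QS S} (hg : Lit V g) : Lit (fun k ω => V k (p.π k ω)) (p.qs g) := by
  obtain ⟨G, rfl, hG⟩ := hg
  refine ⟨p.tr G, (p.qs_mk G).symm, ?_⟩
  filter_upwards [hG] with k hk ω ω' h h' hZ hV
  exact hk _ _ (p.supp k ω h) (p.supp k ω' h') ((p.hZ k ω ω' h h').mp hZ) hV

/-- literal functions on events -/
theorem lit_rest (E : ∀ k, (S.F k).Ω → Prop) (hE : 0 < ul (S.pr E)) {g : QS S} (hg : Lit V g) :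
    Lit (S := S.rest E) V (QS.rest E hE g) := by
  obtain ⟨G, rfl, hG⟩ := hg
  refine ⟨TR.rest E G, (QS.rest_mk E hE G).symm, ?_⟩
  filter_upwards [hG] with k hk ω ω' h h' hZ hV
  exact hk ω ω' ((S.F k).rest_supp (E k) ω h).1 ((S.F k).rest_supp (E k) ω' h').1 hZ hV

end

end Pool.Agent.Helper62.UR
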