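import Pool.Agent.Helper31.EC.Uns

/-! ORDER OF THE WEIGHTS (82e (I1), CORNER4 (0.3)) in the exact calculus. `q` = the base (time and base coordinates), `R`
and `z` two vertical coordinates which are full over the labels of the windows beyond their box (`R` to the level
`wR s`, `z` to the level `wz s`). If `z` is robustly unsaturated given `(q, R)` then `R` is robustly unsaturated given
`(q, z)`. No order of the labels, no maximality is used. -/

set_option autoImplicit false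

namespace Pool.Agent.Helper62.UR

open Finset Filter Topology Pool.Agent.Helper69.RK Pool.Agent.Helper31.EC

noncomputable section

/-- SWAP in an entropy lattice. `κ`, `κ'` = labels of two windows (any order), `R0 ≤ R1 ≤ R`, `z0 ≤ z1 ≤ z`: digits. -/
theorem swap_lat {L : Type*} [PM L] {q κ κ' R0 R1 R z0 z1 z : L} {A B a b θ ρR : ℝ}
    (hR0 : R0 ≤ κ ⊔ q) (hz0 : z0 ≤ κ ⊔ q) (hR1 : R1 ≤ κ' ⊔ q) (hz1 : z1 ≤ κ' ⊔ q) (hR01 : R0 ≤ R1) (hz01 : z0 ≤ z1)
    (hz : z1 ≤ z) (h1 : h R1 R0 ≤ B - A) (h2 : h R R1 ≤ ρR) (h3 : ρR ≤ h R (κ' ⊔ q))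
    (h4 : b - a ≤ h z1 (κ ⊔ q)) (h5 : h z1 (z0 ⊔ (q ⊔ R)) ≤ θ) :
    h R1 (R0 ⊔ (q ⊔ z)) ≤ (B - A) - (b - a) + θ := by
  -- `X = (R0, z0, q)`
  have e1 : h R1 (R0 ⊔ (q ⊔ z)) ≤ h R1 (z ⊔ (R0 ⊔ (z0 ⊔ q))) := by
    apply h_anti
    have a1 : z ≤ R0 ⊔ (q ⊔ z) := le_sup_right.trans le_sup_right
    have a2 : q ≤ R0 ⊔ (q ⊔ z) := le_sup_left.trans le_sup_right
    exact sup_le a1 (sup_le le_sup_left (sup_le (hz01.trans (hz.trans a1)) a2))
  have e2 : I R1 z (R0 ⊔ (z0 ⊔ q)) = h R1 (R0 ⊔ (z0 ⊔ q)) - h R1 (z ⊔ (R0 ⊔ (z0 ⊔ q))) := I_eq _ _ _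
  have e3 : I R1 z1 (R0 ⊔ (z0 ⊔ q)) ≤ I R1 z (R0 ⊔ (z0 ⊔ q)) := I_mono_right (hz.trans le_sup_left)
  have e4 : I R1 z1 (R0 ⊔ (z0 ⊔ q)) = h z1 (R0 ⊔ (z0 ⊔ q)) - h z1 (R1 ⊔ (R0 ⊔ (z0 ⊔ q))) := I_eq' _ _ _
  have e5 : h R1 (R0 ⊔ (z0 ⊔ q)) ≤ B - A := (h_anti le_sup_left).trans h1
  have e6 : b - a ≤ h z1 (R0 ⊔ (z0 ⊔ q)) := h4.trans (h_anti (sup_le hR0 (sup_le hz0 le_sup_right)))
  have e7 : I z1 R (R1 ⊔ (R0 ⊔ (z0 ⊔ q))) = h R (R1 ⊔ (R0 ⊔ (z0 ⊔ q))) - h R (z1 ⊔ (R1 ⊔ (R0 ⊔ (z0 ⊔ q)))) :=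
    I_eq' _ _ _
  have e8 : I z1 R (R1 ⊔ (R0 ⊔ (z0 ⊔ q))) = h z1 (R1 ⊔ (R0 ⊔ (z0 ⊔ q))) - h z1 (R ⊔ (R1 ⊔ (R0 ⊔ (z0 ⊔ q)))) :=
    I_eq _ _ _
  have e9 : h R (R1 ⊔ (R0 ⊔ (z0 ⊔ q))) ≤ ρR := (h_anti le_sup_left).trans h2
  have e10 : ρR ≤ h R (z1 ⊔ (R1 ⊔ (R0 ⊔ (z0 ⊔ q)))) := by
    refine h3.trans (h_anti ?_)
    exact sup_le hz1 (sup_le hR1 (sup_le (hR01.trans hR1) (sup_le (hz01.trans hz1) le_sup_right)))
  have e11 : h z1 (R ⊔ (R1 ⊔ (R0 ⊔ (z0 ⊔ q)))) ≤ θ := by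
    refine (h_anti ?_).trans h5
    have a1 : R ≤ R ⊔ (R1 ⊔ (R0 ⊔ (z0 ⊔ q))) := le_sup_left
    have a2 : z0 ≤ R ⊔ (R1 ⊔ (R0 ⊔ (z0 ⊔ q))) :=
      (le_sup_left.trans (le_sup_right.trans le_sup_right)).trans le_sup_right
    have a3 : q ≤ R ⊔ (R1 ⊔ (R0 ⊔ (z0 ⊔ q))) :=
      (le_sup_right.trans (le_sup_right.trans le_sup_right)).trans le_sup_right
    exact sup_le a2 (sup_le a3 a1)
  linarith

open Sp QS

variable {S : Sp}

/-- robustly unsaturated on the levels up to `b0`: in every extension, on every event of positive probability -/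
def UnB (z : QS S) (A : S.L) (b0 c : ℝ) : Prop :=
  ∀ (T : Sp) (p : Pj T S) (E : ∀ k, (T.F k).Ω → Prop) (hE : 0 < ul (T.pr E)) (a b : ℝ), 0 ≤ a → a ≤ b → b ≤ b0 →
    h (restL E hE (p.map (QS.dg z b))) (restL E hE (p.map (QS.dg z a ⊔ A))) ≤ (1 - c) * (b - a)

theorem UnB.uns {z : QS S} {A : S.L} {c : ℝ} (hz : UnB z A 1 c) : UnS z A 0 c := hz

theorem UnB.of_uns {z : QS S} {A : S.L} {c b0 : ℝ} (hz : UnS z A 0 c) (hb : b0 ≤ 1) : UnB z A b0 c :=
  fun T p E hE a b h1 h2 h3 => hz T p E hE a b h1 h2 (h3.trans hb)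

theorem UnB.anti {z : QS S} {A : S.L} {c b0 b1 : ℝ} (hz : UnB z A b0 c) (hb : b1 ≤ b0) : UnB z A b1 c :=
  fun T p E hE a b h1 h2 h3 => hz T p E hE a b h1 h2 (h3.trans hb)

/-- fullness beyond a known level persists in extensions and on events of positive probability -/
theorem full_rest {T : Sp} (p : Pj T S) (E : ∀ k, (T.F k).Ω → Prop) (hE : 0 < ul (T.pr E)) {f : QS S} {X : S.L}
    {r : ℝ} (hr : r ≤ 1) (hX : dg f r ≤ X) (hf : 1 - r ≤ h (dg f 1) X) :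
    h (restL E hE (p.map (dg f 1))) (restL E hE (p.map X)) = 1 - r := by
  have h0 : h (p.map (dg f 1)) (p.map X) = 1 - r := by
    rw [Pj.h_map]
    exact le_antisymm ((h_anti hX).trans (QS.h_dg_dg f hr)) hf
  apply Sp.h_rest_max E hE h0
  intro E' hE'
  refine (h_anti (restL_mono E' hE' (p.map_mono hX))).trans ?_
  rw [← Pj.qs_dg, ← Pj.qs_dg, ← QS.rest_dg, ← QS.rest_dg]
  exact QS.h_dg_dg _ hr

/-- the same for the digits up to a level -/
theorem full_rest' {T : Sp} (p : Pj T S) (E : ∀ k, (T.F k).Ω → Prop) (hE : 0 < ul (T.pr E)) {f : QS S} {X : S.L}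
    {r b : ℝ} (hr : r ≤ 1) (hb : b ≤ 1) (hX : dg f r ≤ X) (hf : 1 - r ≤ h (dg f 1) X) :
    b - r ≤ h (restL E hE (p.map (dg f b))) (restL E hE (p.map X)) := by
  have h1 := full_rest p E hE hr hX hf
  have h2 : h (restL E hE (p.map (dg f 1))) (restL E hE (p.map X)) ≤
      h (restL E hE (p.map (dg f 1))) (restL E hE (p.map (dg f b)) ⊔ restL E hE (p.map X)) +
        h (restL E hE (p.map (dg f b))) (restL E hE (p.map X)) := h_triangle _ _ _
  have h3 : h (restL E hE (p.map (dg f 1))) (restL E hE (p.map (dg f b)) ⊔ restL E hE (p.map X)) ≤ 1 - b := by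
    refine (h_anti le_sup_left).trans ?_
    rw [← Pj.qs_dg, ← Pj.qs_dg, ← QS.rest_dg, ← QS.rest_dg]
    exact QS.h_dg_dg _ hb
  linarith

theorem h_dg_rest {T : Sp} (p : Pj T S) (E : ∀ k, (T.F k).Ω → Prop) (hE : 0 < ul (T.pr E)) (f : QS S) {a b : ℝ}
    (hab : a ≤ b) : h (restL E hE (p.map (dg f b))) (restL E hE (p.map (dg f a))) ≤ b - a := by
  rw [← Pj.qs_dg, ← Pj.qs_dg, ← QS.rest_dg, ← QS.rest_dg]
  exact QS.h_dg_dg _ hab

/-- ORDER OF THE WEIGHTS. `κ s` (`s ∈ Sc`, dense in `(0, σ]`) = labels of the windows; `R` and `z` are known to `(κ s, q)`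
to the levels `wR s` and `wz s` and full beyond; `z` unsaturated given `(q, R)` up to the level `wz σ`. Then `R` is
unsaturated given `(q, z)` up to the level `wR σ`. -/
theorem swap_unB {q : S.L} {κ : ℝ → S.L} {R z : QS S} {wR wz σ ρ : ℝ} {Sc : Set ℝ} (hwR : 0 < wR) (hwz : 0 < wz)
    (hRσ : wR * σ ≤ 1) (hzσ : wz * σ ≤ 1)
    (hpos : ∀ s ∈ Sc, 0 < s) (hle : ∀ s ∈ Sc, s ≤ σ) (hdense : ∀ a b, 0 < a → a < b → b ≤ σ → ∃ s ∈ Sc, a < s ∧ s < b)
    (kR : ∀ s ∈ Sc, dg R (wR * s) ≤ κ s ⊔ q) (kz : ∀ s ∈ Sc, dg z (wz * s) ≤ κ s ⊔ q)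
    (fR : ∀ s ∈ Sc, 1 - wR * s ≤ h (dg R 1) (κ s ⊔ q)) (fz : ∀ s ∈ Sc, 1 - wz * s ≤ h (dg z 1) (κ s ⊔ q))
    (hz : UnB z (q ⊔ dg R 1) (wz * σ) ρ) : UnB R (q ⊔ dg z 1) (wR * σ) (ρ * (wz / wR)) := by
  intro T p E hE A B hA hAB hB
  -- between two windows
  have key : ∀ s ∈ Sc, ∀ s' ∈ Sc, s ≤ s' →
      h (restL E hE (p.map (dg R (wR * s')))) (restL E hE (p.map (dg R (wR * s) ⊔ (q ⊔ dg z 1)))) ≤
        (1 - ρ * (wz / wR)) * (wR * s' - wR * s) := by
    intro s hs s' hs' hss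
    have hs1 : wR * s ≤ 1 := (mul_le_mul_of_nonneg_left (hle s hs) hwR.le).trans hRσ
    have hs1' : wR * s' ≤ 1 := (mul_le_mul_of_nonneg_left (hle s' hs') hwR.le).trans hRσ
    have hz1 : wz * s ≤ 1 := (mul_le_mul_of_nonneg_left (hle s hs) hwz.le).trans hzσ
    have hz1' : wz * s' ≤ 1 := (mul_le_mul_of_nonneg_left (hle s' hs') hwz.le).trans hzσ
    have ms : wR * s ≤ wR * s' := mul_le_mul_of_nonneg_left hss hwR.le
    have mz : wz * s ≤ wz * s' := mul_le_mul_of_nonneg_left hss hwz.le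
    have rs : ∀ {X Y Z : S.L}, X ≤ Y ⊔ Z → restL E hE (p.map X) ≤ restL E hE (p.map Y) ⊔ restL E hE (p.map Z) := by
      intro X Y Z hXY
      rw [← restL_sup, ← Pj.map_sup]
      exact restL_mono E hE (p.map_mono hXY)
    have f1 : 1 - wR * s' ≤ h (restL E hE (p.map (dg R 1))) (restL E hE (p.map (κ s')) ⊔ restL E hE (p.map q)) := by
      rw [← restL_sup, ← Pj.map_sup]
      exact (full_rest p E hE hs1' (kR s' hs') (fR s' hs')).ge
    have f2 : wz * s' - wz * s ≤ h (restL E hE (p.map (dg z (wz * s'))))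
        (restL E hE (p.map (κ s)) ⊔ restL E hE (p.map q)) := by
      rw [← restL_sup, ← Pj.map_sup]
      exact full_rest' p E hE hz1 hz1' (kz s hs) (fz s hs)
    have f3 : h (restL E hE (p.map (dg z (wz * s')))) (restL E hE (p.map (dg z (wz * s))) ⊔
        (restL E hE (p.map q) ⊔ restL E hE (p.map (dg R 1)))) ≤ (1 - ρ) * (wz * s' - wz * s) := by
      have := hz T p E hE (wz * s) (wz * s') (mul_nonneg hwz.le (hpos s hs).le) mz
        (mul_le_mul_of_nonneg_left (hle s' hs') hwz.le)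
      rw [Pj.map_sup, Pj.map_sup, restL_sup, restL_sup] at this
      exact this
    have := swap_lat (rs (kR s hs)) (rs (kz s hs)) (rs (kR s' hs')) (rs (kz s' hs'))
      (restL_mono E hE (p.map_mono (dg_mono R ms))) (restL_mono E hE (p.map_mono (dg_mono z mz)))
      (restL_mono E hE (p.map_mono (dg_mono z hz1')))
      (h_dg_rest p E hE R ms) (h_dg_rest p E hE R hs1') f1 f2 f3
    rw [Pj.map_sup, Pj.map_sup, restL_sup, restL_sup]
    refine this.trans (le_of_eq ?_)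
    have e : wz / wR * (wR * s' - wR * s) = wz * s' - wz * s := by
      field_simp
    linear_combination ρ * e
  -- all levels
  rcases hAB.eq_or_lt with rfl | hAB'
  · rw [sub_self, mul_zero]
    apply le_of_eq
    exact h_zero (restL_mono E hE (p.map_mono le_sup_left))
  refine le_of_forall_pos_le_add fun ε hε => ?_
  set C : ℝ := |1 - ρ * (wz / wR)| with hC
  have hC0 : 0 ≤ C := abs_nonneg _
  set η : ℝ := min (ε / (4 * (1 + C))) ((B - A) / 4) with hη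
  have hη0 : 0 < η := lt_min (by positivity) (by linarith)
  have hη1 : η * (4 * (1 + C)) ≤ ε := by
    have : η ≤ ε / (4 * (1 + C)) := min_le_left _ _
    rwa [le_div_iff₀ (by positivity)] at this
  have hη2 : η ≤ (B - A) / 4 := min_le_right _ _
  have hBσ : B / wR ≤ σ := by rw [div_le_iff₀ hwR]; linarith
  obtain ⟨s, hs, hs1, hs2⟩ := hdense (A / wR + η / (2 * wR)) (A / wR + η / wR)
    (add_pos_of_nonneg_of_pos (div_nonneg hA hwR.le) (by positivity))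
    (by
      have : η / (2 * wR) < η / wR := by
        rw [div_lt_div_iff₀ (by positivity) hwR]
        nlinarith
      linarith)
    (by
      have : A / wR + η / wR ≤ B / wR := by
        rw [← add_div]
        exact div_le_div_of_nonneg_right (by linarith) hwR.le
      linarith)
  obtain ⟨s', hs', hs1', hs2'⟩ := hdense ((B - η) / wR) (B / wR) (div_pos (by linarith) hwR)
    (div_lt_div_of_pos_right (by linarith) hwR) hBσ
  have m1 : A < wR * s := by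
    have : A / wR < s := lt_trans (by
      have : 0 < η / (2 * wR) := by positivity
      linarith) hs1
    rw [div_lt_iff₀ hwR] at this
    linarith
  have m2 : wR * s < A + η := by
    rw [← add_div, lt_div_iff₀ hwR] at hs2
    linarith
  have m3 : B - η < wR * s' := by
    rw [div_lt_iff₀ hwR] at hs1'
    linarith
  have m4 : wR * s' < B := by
    rw [lt_div_iff₀ hwR] at hs2'
    linarith
  have hss : s ≤ s' := by
    by_contra hc
    push Not at hc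
    have : wR * s' < wR * s := mul_lt_mul_of_pos_left hc hwR
    linarith
  have k1 := key s hs s' hs' hss
  have t1 : h (restL E hE (p.map (dg R B))) (restL E hE (p.map (dg R A ⊔ (q ⊔ dg z 1)))) ≤
      h (restL E hE (p.map (dg R B))) (restL E hE (p.map (dg R (wR * s')))) +
      h (restL E hE (p.map (dg R (wR * s')))) (restL E hE (p.map (dg R A ⊔ (q ⊔ dg z 1)))) := h_triangle' _ _ _
  have t2 : h (restL E hE (p.map (dg R (wR * s')))) (restL E hE (p.map (dg R A ⊔ (q ⊔ dg z 1)))) ≤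
      h (restL E hE (p.map (dg R (wR * s')))) (restL E hE (p.map (dg R (wR * s) ⊔ (q ⊔ dg z 1)))) +
      h (restL E hE (p.map (dg R (wR * s) ⊔ (q ⊔ dg z 1)))) (restL E hE (p.map (dg R A ⊔ (q ⊔ dg z 1)))) :=
    h_triangle' _ _ _
  have t3 := h_dg_rest p E hE R m4.le
  have t4 : h (restL E hE (p.map (dg R (wR * s) ⊔ (q ⊔ dg z 1)))) (restL E hE (p.map (dg R A ⊔ (q ⊔ dg z 1)))) ≤
      wR * s - A := by
    rw [Pj.map_sup, restL_sup, h_sup_right_of_le (restL_mono E hE (p.map_mono le_sup_right))]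
    exact (h_anti (restL_mono E hE (p.map_mono le_sup_left))).trans (h_dg_rest p E hE R m1.le)
  have t5 : (1 - ρ * (wz / wR)) * (wR * s' - wR * s) ≤ (1 - ρ * (wz / wR)) * (B - A) + C * (2 * η) := by
    have a1 : (1 - ρ * (wz / wR)) * ((wR * s' - wR * s) - (B - A)) ≤ C * |(wR * s' - wR * s) - (B - A)| := by
      rw [hC, ← abs_mul]
      exact le_abs_self _
    have a2 : |(wR * s' - wR * s) - (B - A)| ≤ 2 * η := by
      rw [abs_le]
      constructor <;> linarith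
    have a3 : C * |(wR * s' - wR * s) - (B - A)| ≤ C * (2 * η) := mul_le_mul_of_nonneg_left a2 hC0
    linarith
  nlinarith

end

end Pool.Agent.Helper62.UR
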