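import Pool.Agent.Helper62.UR.Th
import Pool.Agent.Helper80.MX.Span

/-! THE WEIGHT OF `R` IS TWO (82e (I3), CORNER4 (4.5)), and `z` is not label free. -/

set_option autoImplicit false

namespace Pool.Agent.Helper62.UR

open Finset Filter Topology Pool.Agent.Helper69.RK Pool.Agent.Helper31.EC Pool.Agent.Helper82.TP
open Pool.Agent.Helper25.EC Pool.Agent.Helper24.T3

noncomputable section

open Sp QS

variable {S : Sp}

/-- rule (c) for a time which is real beyond the level `s`: the slope of a small linear function is small -/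
theorem lin_time {c0 c1 t t0 : QS S} {A : S.L} {s b : ℝ} (hs : s ≤ 1) (hb : b ≤ 1) (hbs : b - s ≤ 1)
    (h0 : dg c0 1 ≤ A) (h1 : dg c1 1 ≤ A) (ht0 : dg t0 1 ≤ A) (htt : t - t0 ∈ Id S s)
    (ht : 1 - s ≤ h (dg t 1) A) (hm : c0 + c1 * t ∈ Id S b) : c1 ∈ Id S (b - s) := by
  obtain ⟨f, hf⟩ : ∃ f : Fin 3 → QS S, f = ![c0, c1, t0] := ⟨_, rfl⟩
  have f0 : f 0 = c0 := by rw [hf]; rfl
  have f1 : f 1 = c1 := by rw [hf]; rfl
  have f2 : f 2 = t0 := by rw [hf]; rfl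
  obtain ⟨D, p1, p2, hc, hi⟩ := Pj.exists_copy (Pj.id S) f
  have g0 : p1.qs c0 = p2.qs c0 := by have := hc 0; rwa [Pj.id_qs, f0] at this
  have g1 : p1.qs c1 = p2.qs c1 := by have := hc 1; rwa [Pj.id_qs, f1] at this
  have g2 : p1.qs t0 = p2.qs t0 := by have := hc 2; rwa [Pj.id_qs, f2] at this
  have hvA : vd f 1 ≤ A := by
    rw [vd_le]
    intro i
    fin_cases i
    · show dg (f 0) 1 ≤ A
      rw [f0]; exact h0
    · show dg (f 1) 1 ≤ A
      rw [f1]; exact h1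
    · show dg (f 2) 1 ≤ A
      rw [f2]; exact ht0
  -- the difference of the times
  have hd : p1.qs t - p2.qs t ∈ Id D s := by
    have e : p1.qs t - p2.qs t = p1.qs (t - t0) - p2.qs (t - t0) := by
      rw [map_sub, map_sub, g2]; ring
    rw [e]
    exact (Id D s).sub_mem (Pj_mem_Id p1 htt) (Pj_mem_Id p2 htt)
  have hr : 1 - s ≤ h (dg (p1.qs t - p2.qs t) 1) (p1.map (dg t 1 ⊔ vd f 1)) := by
    have i0 : I (p1.map (dg t 1 ⊔ vd f 1)) (p2.map (dg t 1)) (p1.map (vd f 1)) = 0 := by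
      have := hi (dg t 1 ⊔ vd f 1) (dg t 1)
      rwa [Pj.id_map] at this
    rw [I_zero_iff_h'] at i0
    have e1 : p1.map (vd f 1) = p2.map (vd f 1) := by
      rw [← Pj.qs_vd, ← Pj.qs_vd]
      congr 1
      funext i
      have := hc i
      rwa [Pj.id_qs] at this
    have i1 : 1 - s ≤ h (p2.map (dg t 1)) (p1.map (dg t 1 ⊔ vd f 1)) := by
      have e2 : p1.map (dg t 1 ⊔ vd f 1) ⊔ p1.map (vd f 1) = p1.map (dg t 1 ⊔ vd f 1) :=
        sup_eq_left.mpr (p1.map_mono le_sup_right)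
      rw [e2, e1, Pj.h_map] at i0
      rw [i0]
      exact ht.trans (h_anti hvA)
    refine i1.trans ?_
    have i2 : p2.map (dg t 1) ≤ dg (p1.qs t - p2.qs t) 1 ⊔ p1.map (dg t 1 ⊔ vd f 1) := by
      have e3 : p2.qs t = p1.qs t - (p1.qs t - p2.qs t) := by ring
      rw [← Pj.qs_dg, e3]
      refine dg_sub_le' _ _ le_rfl ?_ ?_
      · rw [Pj.qs_dg]
        exact (p1.map_mono le_sup_left).trans le_sup_right
      · have e4 : p1.qs t - (p1.qs t - p2.qs t) = p2.qs t := by ring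
        rw [e4]
        exact le_sup_left
    have i3 := h_mono (B := p1.map (dg t 1 ⊔ vd f 1)) i2
    rwa [h_sup_right_of_le le_rfl] at i3
  have hm' : (p1.qs t - p2.qs t) * p1.qs c1 ∈ Id D b := by
    have a1 := Pj_mem_Id p1 hm
    have a2 := Pj_mem_Id p2 hm
    have a3 := (Id D b).sub_mem a1 a2
    have e : p1.qs (c0 + c1 * t) - p2.qs (c0 + c1 * t) = (p1.qs t - p2.qs t) * p1.qs c1 := by
      rw [map_add, map_add, map_mul, map_mul, ← g0, ← g1]; ring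
    rwa [e] at a3
  have := div_small hs hd hr hb hm'
  exact (p1.qs_mem_Id hbs).mp this

/-- velocity of an affine function in the box of a label -/
theorem vel_frame {t t0 x y R F a cR r0 rt ry : QS S} {A : S.L} {s b : ℝ} (hs : s ≤ 1) (hb : b ≤ 1) (hbs : b - s ≤ 1)
    (ea : y = a + t * x) (ec : R = cR + t * F) (hx : dg x 1 ≤ A) (ha : dg a 1 ≤ A) (hc : dg cR 1 ≤ A)
    (hF : dg F 1 ≤ A) (h0 : dg r0 1 ≤ A) (h1 : dg rt 1 ≤ A) (h2 : dg ry 1 ≤ A) (ht0 : dg t0 1 ≤ A)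
    (htt : t - t0 ∈ Id S s) (ht : 1 - s ≤ h (dg t 1) A) (hfr : R - (r0 + rt * t + ry * y) ∈ Id S b) :
    F - (rt + ry * x) ∈ Id S (b - s) := by
  refine lin_time (c0 := cR - r0 - ry * a) hs hb hbs ?_ ?_ ht0 htt ht ?_
  · exact dg_sub_le' _ _ le_rfl (dg_sub_le' _ _ le_rfl hc h0) (dg_mul_le' _ _ le_rfl h2 ha)
  · exact dg_sub_le' _ _ le_rfl hF (dg_add_le' _ _ le_rfl h1 (dg_mul_le' _ _ le_rfl h2 hx))
  · have e : cR - r0 - ry * a + (F - (rt + ry * x)) * t = R - (r0 + rt * t + ry * y) := by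
      rw [ec, ea]; ring
    rw [e]
    exact hfr

/-- `w1 ≤ 2`: the frames know the base point. `A` = line and label, `κ` = label. -/
theorem w1_le {t t0 x y R F a cR r0 rt ry : QS S} {A κ : S.L} {s w1 : ℝ} (hs : 0 < s) (hs1 : s ≤ 1)
    (hws : w1 * s ≤ 1) (ea : y = a + t * x) (ec : R = cR + t * F) (hκA : κ ≤ A) (hx : dg x 1 ≤ A) (ha : dg a 1 ≤ A)
    (hc : dg cR 1 ≤ A) (hF : dg F 1 ≤ A) (h0 : dg r0 1 ≤ κ) (h1 : dg rt 1 ≤ κ) (h2 : dg ry 1 ≤ κ) (ht0 : dg t0 1 ≤ κ)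
    (htt : t - t0 ∈ Id S s) (ht : 1 - s ≤ h (dg t 1) A) (hfr : R - (r0 + rt * t + ry * y) ∈ Id S (w1 * s))
    (hxr : ∀ (T : Sp) (p : Pj T S) (E : ∀ k, (T.F k).Ω → Prop) (hE : 0 < ul (T.pr E)) (r : ℝ), 0 < r → r ≤ 1 →
      0 < h (restL E hE (p.map (dg x r))) (restL E hE (p.map (κ ⊔ (dg t 1 ⊔ dg y 1)))))
    {th al be : QS S} (zth : dg th 1 = ⊥) (zal : dg al 1 = ⊥) (zbe : dg be 1 = ⊥) (hu : IsUnit th)
    (hvel : F = be + al * x + th * a) : w1 ≤ 2 := by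
  have hws1 : w1 * s - s ≤ 1 := by linarith
  have v1 := vel_frame hs1 hws hws1 ea ec hx ha hc hF (h0.trans hκA) (h1.trans hκA) (h2.trans hκA) (ht0.trans hκA)
    htt ht hfr
  have e1 : F - (rt + ry * x) = (be + th * y - rt) + (al - th * t - ry) * x := by
    rw [hvel, ea]; ring
  rw [e1] at v1
  have bt : dg t 1 ≤ κ ⊔ (dg t 1 ⊔ dg y 1) := le_sup_left.trans le_sup_right
  have by' : dg y 1 ≤ κ ⊔ (dg t 1 ⊔ dg y 1) := le_sup_right.trans le_sup_right
  obtain ⟨_, m1⟩ := Pool.Agent.Helper19.TP.lin_small (A := κ ⊔ (dg t 1 ⊔ dg y 1))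
    (dg_sub_le' _ _ le_rfl (dg_add_le' _ _ le_rfl (zle zbe le_rfl _) (dg_mul_le' _ _ le_rfl (zle zth le_rfl _) by'))
      (h1.trans le_sup_left))
    (dg_sub_le' _ _ le_rfl (dg_sub_le' _ _ le_rfl (zle zal le_rfl _) (dg_mul_le' _ _ le_rfl (zle zth le_rfl _) bt))
      (h2.trans le_sup_left)) hxr hws1 v1
  obtain ⟨ti, hti⟩ := hu.exists_left_inv
  have zti : dg ti 1 = ⊥ := by
    apply le_bot_iff.mp
    rw [← zth]
    exact dg_inv_le hti le_rfl
  have m2 : t - ti * (al - ry) ∈ Id S (w1 * s - s) := by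
    have e : t - ti * (al - ry) = (-ti) * (al - th * t - ry) := by
      linear_combination (-t) * hti
    rw [e]
    exact Ideal.mul_mem_left _ _ m1
  by_contra hc'
  push Not at hc'
  have k1 : dg t (w1 * s - s) ≤ κ := by
    refine dg_le_of_sub m2 le_rfl hws1 ?_
    exact dg_mul_le' _ _ hws1 (zle zti hws1 _) (dg_sub_le' _ _ hws1 (zle zal hws1 _) ((dg_mono ry hws1).trans h2))
  have k2 : h (dg t 1) A ≤ 1 - (w1 * s - s) := by
    refine (h_triangle' _ (dg t (w1 * s - s)) _).trans ?_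
    rw [h_zero (k1.trans hκA), add_zero]
    exact QS.h_dg_dg _ hws1
  nlinarith

/-- real variables over a base have no atoms over it -/
theorem real_rich' {a : QS S} {A : S.L} (ha : 1 ≤ h (dg a 1) A) {T : Sp} (p : Pj T S) (E : ∀ k, (T.F k).Ω → Prop)
    (hE : 0 < ul (T.pr E)) {r : ℝ} (h0 : 0 < r) (h1 : r ≤ 1) :
    0 < h (restL E hE (p.map (dg a r))) (restL E hE (p.map A)) := by
  have h2 : h (p.map (dg a 1)) (p.map A) = 1 := by
    rw [Pj.h_map]
    exact le_antisymm (h_dg_le_one a A) ha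
  have h3 : h (restL E hE (p.map (dg a 1))) (restL E hE (p.map A)) = 1 := by
    apply Sp.h_rest_max E hE h2
    intro E' hE'
    rw [← Pj.qs_dg, ← QS.rest_dg]
    exact h_dg_le_one _ _
  have h4 := h_triangle (restL E hE (p.map (dg a 1))) (restL E hE (p.map (dg a r))) (restL E hE (p.map A))
  have h5 : h (restL E hE (p.map (dg a 1))) (restL E hE (p.map (dg a r)) ⊔ restL E hE (p.map A)) ≤ 1 - r := by
    refine (h_anti le_sup_left).trans ?_
    rw [← Pj.qs_dg, ← Pj.qs_dg, ← QS.rest_dg, ← QS.rest_dg]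
    exact QS.h_dg_dg _ h1
  linarith

/-- the coefficients of a velocity `be + al x + th a` agree in any two copies with the same line -/
theorem coef_line {T : Sp} (P Q : Pj T S) {x a F th al be : QS S} (zth : dg th 1 = ⊥) (zal : dg al 1 = ⊥)
    (zbe : dg be 1 = ⊥) (hvel : F = be + al * x + th * a) (ha : 1 ≤ h (dg a 1) (dg x 1))
    (hx : ∀ (T : Sp) (p : Pj T S) (E : ∀ k, (T.F k).Ω → Prop) (hE : 0 < ul (T.pr E)) (r : ℝ), 0 < r → r ≤ 1 →
      0 < h (restL E hE (p.map (dg x r))) (restL E hE (p.map ⊥)))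
    (ex : P.qs x = Q.qs x) (ea : P.qs a = Q.qs a) (eF : P.qs F = Q.qs F) :
    P.qs th = Q.qs th ∧ P.qs al = Q.qs al ∧ P.qs be = Q.qs be := by
  have e1 := congrArg P.qs hvel
  have e2 := congrArg Q.qs hvel
  simp only [map_add, map_mul] at e1 e2
  rw [← eF, ← ex, ← ea, e1] at e2
  have e3 : ((P.qs be - Q.qs be) + (P.qs al - Q.qs al) * P.qs x) + (P.qs th - Q.qs th) * P.qs a = 0 := by
    linear_combination e2
  have b0 : dg (P.qs x) 1 = P.map (dg x 1) := P.qs_dg x 1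
  obtain ⟨m0, m1⟩ := Pool.Agent.Helper19.TP.lin_small (A := P.map (dg x 1)) (x := P.qs a)
    (dg_add_le' _ _ le_rfl ((z_sub P Q zbe).trans bot_le)
      (dg_mul_le' _ _ le_rfl ((z_sub P Q zal).trans bot_le) b0.le))
    ((z_sub P Q zth).trans bot_le)
    (fun T' p' E hE r a0 a1 => by
      have := real_rich' ha (p'.comp P) E hE a0 a1
      rw [Pj.comp_map, Pj.comp_map] at this
      rw [Pj.qs_dg]
      exact this) le_rfl (by rw [e3]; exact zero_mem _)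
  obtain ⟨n0, n1⟩ := Pool.Agent.Helper19.TP.lin_small (A := ⊥) (x := P.qs x) (z_sub P Q zbe) (z_sub P Q zal)
    (fun T' p' E hE r a0 a1 => by
      have := hx T' (p'.comp P) E hE r a0 a1
      rw [Pj.comp_map, Pj.comp_map, P.map_bot] at this
      rw [Pj.qs_dg]
      exact this) le_rfl m0
  rw [mem_Id_one, sub_eq_zero] at m1 n0 n1
  exact ⟨m1, n1, n0⟩

/-- the coefficients of gradients `be + th y`, `al - th t` agree in any two copies with the same point -/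
theorem coef_point {T : Sp} (P Q : Pj T S) {t y κ0 κ1 th al be : QS S} (zth : dg th 1 = ⊥) (zbe : dg be 1 = ⊥)
    (h0 : κ0 = be + th * y) (h1 : κ1 = al - th * t) (hy : 1 ≤ h (dg y 1) ⊥)
    (et : P.qs t = Q.qs t) (ey : P.qs y = Q.qs y) (e0 : P.qs κ0 = Q.qs κ0) (e1 : P.qs κ1 = Q.qs κ1) :
    P.qs th = Q.qs th ∧ P.qs al = Q.qs al ∧ P.qs be = Q.qs be := by
  rw [h0] at e0
  rw [h1] at e1
  simp only [map_add, map_sub, map_mul] at e0 e1
  rw [← ey] at e0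
  rw [← et] at e1
  obtain ⟨m0, m1⟩ := Pool.Agent.Helper19.TP.lin_small (A := ⊥) (x := P.qs y) (z_sub P Q zbe) (z_sub P Q zth)
    (fun T' p' E hE r a0 a1 => by
      have := real_rich' hy (p'.comp P) E hE a0 a1
      rw [Pj.comp_map, Pj.comp_map, P.map_bot] at this
      rw [Pj.qs_dg]
      exact this) le_rfl (by
        have : P.qs be - Q.qs be + (P.qs th - Q.qs th) * P.qs y = 0 := by linear_combination e0
        rw [this]; exact zero_mem _)
  rw [mem_Id_one, sub_eq_zero] at m0 m1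
  refine ⟨m1, ?_, m0⟩
  rw [← m1] at e1
  linear_combination e1

/-- `f` is full beyond the level `r0` over `q` and over every agreement label of the variables `VA` and `VB` -/
def FullAg {α β : ℕ → Type} (VA : ∀ k, (S.F k).Ω → α k) (VB : ∀ k, (S.F k).Ω → β k) (f : QS S) (q : S.L)
    (r0 : ℝ) : Prop :=
  ∀ (gA gB : QS S) (δ : ℝ), 0 < δ → δ ≤ 1 → Lit VA gA → Lit VB gB → gA - gB ∈ Id S δ →
    1 - r0 ≤ h (dg f 1) (dg gB δ ⊔ q)

/-- the same for functions whose copies agree -/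
theorem FullAg.two {α β : ℕ → Type} {VA : ∀ k, (S.F k).Ω → α k} {VB : ∀ k, (S.F k).Ω → β k} {f : QS S} {q : S.L}
    {r0 : ℝ} (hf : FullAg VA VB f q r0) {g : QS S} {δ : ℝ} (h0 : 0 < δ) (h1 : δ ≤ 1)
    (hA : (two1 VA).qs g - (two2 VA).qs g ∈ Id (two VA) δ) (hB : (two1 VB).qs g - (two2 VB).qs g ∈ Id (two VB) δ) :
    1 - r0 ≤ h (dg f 1) (dg g δ ⊔ q) := by
  obtain ⟨gA, lA, eA⟩ := lit_of_two hA
  obtain ⟨gB, lB, eB⟩ := lit_of_two hB
  have h2 : gA - gB ∈ Id S δ := by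
    have e : gA - gB = (g - gB) - (g - gA) := by ring
    rw [e]
    exact (Id S δ).sub_mem eB eA
  have h3 := hf gA gB δ h0 h1 lA lB h2
  rwa [← dg_eq_of_sub_mem eB le_rfl h1] at h3

/-- `2 ≤ w1`: the tangent plane at the centre of the cell of the window is an agreement label of precision `2 s`.
`VA` = line, time cell and label, `VB` = point and label, `q` = base point and label. -/
theorem w1_ge {α β : ℕ → Type} {VA : ∀ k, (S.F k).Ω → α k} {VB : ∀ k, (S.F k).Ω → β k}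
    {t x y R F a cR κ0 κ1 t0 y0 : QS S} {q : S.L} {s w1 : ℝ} (hs : 0 < s) (hs1 : 2 * s ≤ 1)
    (ea : y = a + t * x) (ec : R = cR + t * F) (eF : F = κ0 + κ1 * x) (hag : FullAg VA VB R q (w1 * s))
    (lx : Lit VA x) (la : Lit VA a) (lc : Lit VA cR) (lF : Lit VA F) (lt0 : Lit VA t0) (ly0 : Lit VA y0)
    (lt : Lit VB t) (ly : Lit VB y) (lR : Lit VB R) (l0 : Lit VB κ0) (l1 : Lit VB κ1) (lt0' : Lit VB t0)
    (ly0' : Lit VB y0) (htt : t - t0 ∈ Id S s) (hyy : y - y0 ∈ Id S s)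
    (qt : dg t 1 ≤ q) (qy : dg y 1 ≤ q) (qt0 : dg t0 1 ≤ q) (qy0 : dg y0 1 ≤ q)
    (hx : ∀ (T : Sp) (p : Pj T S) (E : ∀ k, (T.F k).Ω → Prop) (hE : 0 < ul (T.pr E)) (r : ℝ), 0 < r → r ≤ 1 →
      0 < h (restL E hE (p.map (dg x r))) (restL E hE (p.map ⊥)))
    (ha : 1 ≤ h (dg a 1) (dg x 1)) (hy : 1 ≤ h (dg y 1) ⊥)
    {th al be : QS S} (zth : dg th 1 = ⊥) (zal : dg al 1 = ⊥) (zbe : dg be 1 = ⊥)
    (h0 : κ0 = be + th * y) (h1 : κ1 = al - th * t) : 2 ≤ w1 := by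
  have hvel : F = be + al * x + th * a := by
    rw [eF, h0, h1, ea]; ring
  have hs1' : s ≤ 1 := by linarith
  obtain ⟨g, hg⟩ : ∃ g, g = R - be * t - al * y - th * (y0 * t - t0 * y) := ⟨_, rfl⟩
  obtain ⟨m, hm⟩ : ∃ m, m = (y - y0) - (t - t0) * x := ⟨_, rfl⟩
  have hmI : m ∈ Id S s := by
    rw [hm]
    exact (Id S s).sub_mem hyy (Ideal.mul_mem_right _ _ htt)
  have em : m = a - y0 + t0 * x := by rw [hm, ea]; ring
  have eg : g = ((cR - al * a + th * t0 * a) + t0 * th * m) + th * ((t - t0) * m) := by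
    rw [hg, em, ec, hvel, ea]; ring
  have hprod : (t - t0) * m ∈ Id S (2 * s) := by
    have := Helper80.MX.Id_mul hs1' hs1' htt hmI
    rwa [← two_mul] at this
  -- the line
  have hA : (two1 VA).qs g - (two2 VA).qs g ∈ Id (two VA) (2 * s) := by
    obtain ⟨c1, c2, c3⟩ := coef_line (two1 VA) (two2 VA) zth zal zbe hvel ha hx (lit_two lx) (lit_two la) (lit_two lF)
    have d1 := lit_two lc
    have d2 := lit_two la
    have d3 := lit_two lt0
    have d4 := lit_two ly0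
    have d5 := lit_two lx
    have sP := Pj_mem_Id (two1 VA) (Ideal.mul_mem_left _ th hprod)
    have sQ := Pj_mem_Id (two2 VA) (Ideal.mul_mem_left _ th hprod)
    have e : (two1 VA).qs g - (two2 VA).qs g = (two1 VA).qs (th * ((t - t0) * m)) - (two2 VA).qs (th * ((t - t0) * m)) := by
      have e2 : (two1 VA).qs ((cR - al * a + th * t0 * a) + t0 * th * m) =
          (two2 VA).qs ((cR - al * a + th * t0 * a) + t0 * th * m) := by
        rw [em]
        simp only [map_add, map_sub, map_mul]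
        rw [c1, c2, d1, d2, d3, d4, d5]
      rw [eg, map_add, map_add _ _ (th * ((t - t0) * m)), e2]
      ring
    rw [e]
    exact (Id _ (2 * s)).sub_mem sP sQ
  -- the point
  have hB : (two1 VB).qs g - (two2 VB).qs g ∈ Id (two VB) (2 * s) := by
    obtain ⟨c1, c2, c3⟩ := coef_point (two1 VB) (two2 VB) zth zbe h0 h1 hy (lit_two lt) (lit_two ly) (lit_two l0)
      (lit_two l1)
    have d1 := lit_two lt
    have d2 := lit_two ly
    have d3 := lit_two lR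
    have d4 := lit_two lt0'
    have d5 := lit_two ly0'
    have e : (two1 VB).qs g - (two2 VB).qs g = 0 := by
      rw [hg]
      simp only [map_sub, map_mul]
      rw [c1, c2, c3, d1, d2, d3, d4, d5]
      ring
    rw [e]
    exact zero_mem _
  have h2s : 0 < 2 * s := by linarith
  have k1 := hag.two h2s hs1 hA hB
  have k2 : dg R (2 * s) ≤ dg g (2 * s) ⊔ q := by
    have e5 : R = ((g + be * t) + al * y) + th * (y0 * t - t0 * y) := by rw [hg]; ring
    have b : ∀ {f : QS S}, dg f 1 ≤ q → dg f (2 * s) ≤ dg g (2 * s) ⊔ q := fun hf =>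
      ((dg_mono _ hs1).trans hf).trans le_sup_right
    have hz : ∀ {f : QS S}, dg f 1 = ⊥ → dg f (2 * s) ≤ dg g (2 * s) ⊔ q := fun hf => zle hf hs1 _
    have goal : dg (((g + be * t) + al * y) + th * (y0 * t - t0 * y)) (2 * s) ≤ dg g (2 * s) ⊔ q := by
      refine dg_add_le' _ _ hs1 (dg_add_le' _ _ hs1 (dg_add_le' _ _ hs1 le_sup_left ?_) ?_) ?_
      · exact dg_mul_le' _ _ hs1 (hz zbe) (b qt)
      · exact dg_mul_le' _ _ hs1 (hz zal) (b qy)
      · exact dg_mul_le' _ _ hs1 (hz zth) (dg_sub_le' _ _ hs1 (dg_mul_le' _ _ hs1 (b qy0) (b qt))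
          (dg_mul_le' _ _ hs1 (b qt0) (b qy)))
    rwa [← e5] at goal
  have k3 : h (dg R 1) (dg g (2 * s) ⊔ q) ≤ 1 - 2 * s := by
    refine (h_triangle' _ (dg R (2 * s)) _).trans ?_
    rw [h_zero k2, add_zero]
    exact QS.h_dg_dg _ hs1
  nlinarith

/-- `z` LABEL FREE: if the velocities of `R` and `z` are both given by constants then `z` is an affine function of `t`,
`y`, `R` with coefficients of zero entropy. -/
theorem z_lin {α β : ℕ → Type} {VA : ∀ k, (S.F k).Ω → α k} {VB : ∀ k, (S.F k).Ω → β k}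
    {t x y R F a cR κ0 κ1 z v cz ζ0 ζ1 : QS S} (ea : y = a + t * x) (ec : R = cR + t * F) (eF : F = κ0 + κ1 * x)
    (ez : z = cz + t * v) (ev : v = ζ0 + ζ1 * x) (hag : AgC VB VA)
    (lx : Lit VA x) (la : Lit VA a) (lc : Lit VA cR) (lF : Lit VA F) (lcz : Lit VA cz) (lv : Lit VA v)
    (lt : Lit VB t) (ly : Lit VB y) (lR : Lit VB R) (l0 : Lit VB κ0) (l1 : Lit VB κ1) (lz : Lit VB z)
    (l0' : Lit VB ζ0) (l1' : Lit VB ζ1)
    (hx : ∀ (T : Sp) (p : Pj T S) (E : ∀ k, (T.F k).Ω → Prop) (hE : 0 < ul (T.pr E)) (r : ℝ), 0 < r → r ≤ 1 →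
      0 < h (restL E hE (p.map (dg x r))) (restL E hE (p.map ⊥)))
    (ha : 1 ≤ h (dg a 1) (dg x 1)) (hy : 1 ≤ h (dg y 1) ⊥)
    {th al be th' al' be' : QS S} (zth : dg th 1 = ⊥) (zal : dg al 1 = ⊥) (zbe : dg be 1 = ⊥)
    (zth' : dg th' 1 = ⊥) (zal' : dg al' 1 = ⊥) (zbe' : dg be' 1 = ⊥)
    (h0 : κ0 = be + th * y) (h1 : κ1 = al - th * t) (h0' : ζ0 = be' + th' * y) (h1' : ζ1 = al' - th' * t)
    (hu : IsUnit th) : ∃ μ c0 c1 c2 : QS S, dg μ 1 = ⊥ ∧ dg c0 1 = ⊥ ∧ dg c1 1 = ⊥ ∧ dg c2 1 = ⊥ ∧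
      z = c0 + c1 * t + c2 * y + μ * R ∧
      ∀ (T : Sp) (P Q : Pj T S), P.qs x = Q.qs x → P.qs a = Q.qs a → P.qs cR = Q.qs cR → P.qs F = Q.qs F →
        P.qs cz = Q.qs cz → P.qs v = Q.qs v →
        P.qs μ = Q.qs μ ∧ P.qs c0 = Q.qs c0 ∧ P.qs c1 = Q.qs c1 ∧ P.qs c2 = Q.qs c2 := by
  obtain ⟨ti, hti⟩ := hu.exists_left_inv
  have zti : dg ti 1 = ⊥ := by
    apply le_bot_iff.mp
    rw [← zth]
    exact dg_inv_le hti le_rfl
  have hvel : F = be + al * x + th * a := by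
    rw [eF, h0, h1, ea]; ring
  have hvel' : v = be' + al' * x + th' * a := by
    rw [ev, h0', h1', ea]; ring
  obtain ⟨μ, hμ⟩ : ∃ μ, μ = th' * ti := ⟨_, rfl⟩
  have zμ : dg μ 1 = ⊥ := by
    apply le_bot_iff.mp
    rw [hμ]
    exact dg_mul_le' _ _ le_rfl zth'.le zti.le
  have hμt : μ * th = th' := by
    rw [hμ, mul_assoc, hti, mul_one]
  obtain ⟨g, hg⟩ : ∃ g, g = z - μ * R - (be' - μ * be) * t - (al' - μ * al) * y := ⟨_, rfl⟩
  have eg : g = cz - μ * cR - (al' - μ * al) * a := by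
    rw [hg, ez, ec, hvel, hvel', ea]
    linear_combination (-(t * a)) * hμt
  have copy_ti : ∀ {T : Sp} (P Q : Pj T S), P.qs th = Q.qs th → P.qs ti = Q.qs ti := by
    intro T P Q hPQ
    have e1 := congrArg P.qs hti
    have e2 := congrArg Q.qs hti
    rw [map_mul, map_one] at e1 e2
    rw [← hPQ] at e2
    calc P.qs ti = P.qs ti * (Q.qs ti * P.qs th) := by rw [e2, mul_one]
      _ = (P.qs ti * P.qs th) * Q.qs ti := by ring
      _ = Q.qs ti := by rw [e1, one_mul]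
  have copy_all : ∀ (T : Sp) (P Q : Pj T S), P.qs x = Q.qs x → P.qs a = Q.qs a → P.qs cR = Q.qs cR →
      P.qs F = Q.qs F → P.qs cz = Q.qs cz → P.qs v = Q.qs v → P.qs μ = Q.qs μ ∧ P.qs g = Q.qs g ∧
      P.qs (be' - μ * be) = Q.qs (be' - μ * be) ∧ P.qs (al' - μ * al) = Q.qs (al' - μ * al) := by
    intro T P Q px pa pc pF pz pv
    obtain ⟨c1, c2, c3⟩ := coef_line P Q zth zal zbe hvel ha hx px pa pF
    obtain ⟨b1, b2, b3⟩ := coef_line P Q zth' zal' zbe' hvel' ha hx px pa pv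
    have d1 := copy_ti _ _ c1
    rw [eg, hμ]
    simp only [map_sub, map_mul]
    rw [b1, b2, b3, c2, c3, d1, pz, pc, pa]
    exact ⟨rfl, rfl, rfl, rfl⟩
  have hA : (two1 VA).qs g = (two2 VA).qs g :=
    (copy_all _ _ _ (lit_two lx) (lit_two la) (lit_two lc) (lit_two lF) (lit_two lcz) (lit_two lv)).2.1
  have hB : (two1 VB).qs g = (two2 VB).qs g := by
    obtain ⟨c1, c2, c3⟩ := coef_point (two1 VB) (two2 VB) zth zbe h0 h1 hy (lit_two lt) (lit_two ly) (lit_two l0)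
      (lit_two l1)
    obtain ⟨b1, b2, b3⟩ := coef_point (two1 VB) (two2 VB) zth' zbe' h0' h1' hy (lit_two lt) (lit_two ly) (lit_two l0')
      (lit_two l1')
    have d1 := copy_ti _ _ c1
    rw [hg, hμ]
    simp only [map_sub, map_mul]
    rw [b1, b2, b3, c2, c3, d1, lit_two lz, lit_two lR, lit_two lt, lit_two ly]
  obtain ⟨gA, lA, eA⟩ := lit_of_two (V := VA) (g := g) (δ := 1) (by rw [hA, sub_self]; exact zero_mem _)
  obtain ⟨gB, lB, eB⟩ := lit_of_two (V := VB) (g := g) (δ := 1) (by rw [hB, sub_self]; exact zero_mem _)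
  rw [mem_Id_one, sub_eq_zero] at eA eB
  subst eA
  have ht : Typ (S := S) (fun _ _ => True) := Typ_true
  have hE := Sp.ul_pr_typ_pos _ ht
  have k1 := agc_two hag hE (f := QS.rest _ hE g) one_pos le_rfl
    (by rw [lit_two (lit_rest _ hE lA), sub_self]; exact zero_mem _)
    (by rw [lit_two (lit_rest _ hE (eB ▸ lB)), sub_self]; exact zero_mem _)
  have k2 : dg g 1 ≤ ⊥ := by
    have := (Sp.restL_le_typ _ ht (dg g 1) ⊥).mp
    apply this
    rw [← QS.rest_dg, k1]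
    exact bot_le
  have zs : ∀ {f f' : QS S}, dg f 1 = ⊥ → dg f' 1 = ⊥ → dg (f - μ * f') 1 = ⊥ := fun h h' =>
    le_bot_iff.mp (dg_sub_le' _ _ le_rfl (zle h le_rfl _) (dg_mul_le' _ _ le_rfl (zle zμ le_rfl _)
      (zle h' le_rfl _)))
  refine ⟨μ, g, be' - μ * be, al' - μ * al, zμ, le_bot_iff.mp k2, zs zbe' zbe, zs zal' zal, ?_, copy_all⟩
  rw [hg]; ring

/-- `z` IS NOT LABEL FREE: if the velocities of `R` and `z` are both given by constants then a combination of the two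
coordinates is conserved along the lines. -/
theorem z_free {α β : ℕ → Type} {VA : ∀ k, (S.F k).Ω → α k} {VB : ∀ k, (S.F k).Ω → β k}
    {t x y R F a cR κ0 κ1 z v cz ζ0 ζ1 : QS S} (ea : y = a + t * x) (ec : R = cR + t * F) (eF : F = κ0 + κ1 * x)
    (ez : z = cz + t * v) (ev : v = ζ0 + ζ1 * x) (hag : AgC VB VA)
    (lx : Lit VA x) (la : Lit VA a) (lc : Lit VA cR) (lF : Lit VA F) (lcz : Lit VA cz) (lv : Lit VA v)
    (lt : Lit VB t) (ly : Lit VB y) (lR : Lit VB R) (l0 : Lit VB κ0) (l1 : Lit VB κ1) (lz : Lit VB z)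
    (l0' : Lit VB ζ0) (l1' : Lit VB ζ1)
    (hx : ∀ (T : Sp) (p : Pj T S) (E : ∀ k, (T.F k).Ω → Prop) (hE : 0 < ul (T.pr E)) (r : ℝ), 0 < r → r ≤ 1 →
      0 < h (restL E hE (p.map (dg x r))) (restL E hE (p.map ⊥)))
    (ha : 1 ≤ h (dg a 1) (dg x 1)) (hy : 1 ≤ h (dg y 1) ⊥)
    {th al be th' al' be' : QS S} (zth : dg th 1 = ⊥) (zal : dg al 1 = ⊥) (zbe : dg be 1 = ⊥)
    (zth' : dg th' 1 = ⊥) (zal' : dg al' 1 = ⊥) (zbe' : dg be' 1 = ⊥)
    (h0 : κ0 = be + th * y) (h1 : κ1 = al - th * t) (h0' : ζ0 = be' + th' * y) (h1' : ζ1 = al' - th' * t)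
    (hu : IsUnit th)
    (hz : ∀ μ : QS S, dg μ 1 = ⊥ → ¬ dg (z - μ * R) 1 ≤ dg t 1 ⊔ dg y 1) : False := by
  obtain ⟨μ, c0, c1, c2, zμ, z0, z1, z2, e, -⟩ := z_lin ea ec eF ez ev hag lx la lc lF lcz lv lt ly lR l0 l1 lz l0' l1'
    hx ha hy zth zal zbe zth' zal' zbe' h0 h1 h0' h1' hu
  refine hz μ zμ ?_
  have e6 : z - μ * R = (c0 + c1 * t) + c2 * y := by rw [e]; ring
  rw [e6]
  exact dg_add_le' _ _ le_rfl (dg_add_le' _ _ le_rfl (zle z0 le_rfl _) (dg_mul_le' _ _ le_rfl (zle z1 le_rfl _)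
    le_sup_left)) (dg_mul_le' _ _ le_rfl (zle z2 le_rfl _) le_sup_right)

end

end Pool.Agent.Helper62.UR
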