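import Pool.Agent.Helper62.UR.Lc
import Pool.Agent.Helper19.TP.Ric
import Pool.Agent.Helper24.T3.Agc

/-! DESCENT. (1) A function on an extension whose two copies over the whole space agree comes from the space.
(2) Agreement on an event gives functions of the variable on the whole space, so that the agreement principle `AgC`
(helper24) applies to functions on restricted spaces. -/

set_option autoImplicit false

namespace Pool.Agent.Helper62.UR

open Finset Filter Topology Pool.Agent.Helper69.RK Pool.Agent.Helper31.EC Pool.Agent.Helper82.TP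
open Pool.Agent.Helper25.EC Pool.Agent.Helper24.T3

noncomputable section

open Sp QS

variable {S : Sp}

/-- agreement on an event: functions of the variable on the whole space -/
theorem fn_of_two_rest {α : ℕ → Type} {V : ∀ k, (S.F k).Ω → α k} {E : ∀ k, (S.F k).Ω → Prop}
    (hE : 0 < ul (S.pr E)) {f : QS (S.rest E)} {δ : ℝ}
    (h : (two1 (S := S.rest E) V).qs f - (two2 (S := S.rest E) V).qs f ∈ Id (two (S := S.rest E) V) δ) :
    ∃ g : QS S, g ∈ Fn V ∧ f - QS.rest E hE g ∈ Id (S.rest E) δ := by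
  obtain ⟨G, rfl⟩ := mk_surj f
  rw [Pj.qs_mk, Pj.qs_mk, ← map_sub, mk_mem_Id'] at h
  obtain ⟨A, K, hA, hK, hh⟩ := h
  obtain ⟨c, hc, hR⟩ := exists_rep (S := S.rest E) V
    (fun k ω ω' => |TR.ev G k ω - TR.ev G k ω'| ≤ K k * (S.rest E).dl (min δ 1) k)
  obtain ⟨B, hB, hGB⟩ := G.2
  have hB' : S.Sub B := hB
  let gV : TR S := ⟨fun k ω => max (-(B k)) (min (B k) (TR.ev G k (c k ω))), B, hB', by
    filter_upwards [hB'.1] with k hk ω _
    rw [abs_le]
    exact ⟨le_max_left _ _, max_le (by linarith) (min_le_left _ _)⟩⟩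
  refine ⟨mk gV, ⟨gV, fun k ω ω' hV hZ => ?_, rfl⟩, ?_⟩
  · show max (-(B k)) (min (B k) (TR.ev G k (c k ω))) = max (-(B k)) (min (B k) (TR.ev G k (c k ω')))
    rw [hc k ω ω' hV hZ]
  · rw [QS.rest_mk, ← map_sub, mk_mem_Id']
    refine ⟨fun k ω => |TR.ev G k ω - TR.ev G k (c k ω)| ≤ K k * (S.rest E).dl (min δ 1) k, K, ?_, hK, ?_⟩
    · unfold Typ
      have h1 : Tendsto (fun k => mass (res ((two (S := S.rest E) V).F k).μ (fun w => ¬ A k w))) UF (𝓝 0) := hA
      refine squeeze_zero' (Eventually.of_forall fun k => mass_res_nonneg (S := S.rest E) k _) ?_ h1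
      filter_upwards [hh] with k hk
      refine (hR k).trans ?_
      apply ((two (S := S.rest E) V).F k).pb_mono
      intro w hw hn he
      apply hn
      have h2 := hk w hw he
      rw [TR.ev_sub, TR.ev_zero, sub_zero] at h2
      exact h2
    · filter_upwards [hGB] with k hk ω hω hr
      rw [TR.ev_sub, TR.ev_zero, sub_zero]
      show |TR.ev G k ω - max (-(B k)) (min (B k) (TR.ev G k (c k ω)))| ≤ _
      have h2 := clip_sub (B k) (TR.ev G k ω) (TR.ev G k (c k ω))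
      have h3 : max (-(B k)) (min (B k) (TR.ev G k ω)) = TR.ev G k ω := clip_id (hk ω hω)
      rw [h3] at h2
      exact h2.trans hr

/-- the agreement principle for functions on events, in the form of copies -/
theorem agc_two {α β : ℕ → Type} {VB : ∀ k, (S.F k).Ω → α k} {VA : ∀ k, (S.F k).Ω → β k} (hag : AgC VB VA)
    {E : ∀ k, (S.F k).Ω → Prop} (hE : 0 < ul (S.pr E)) {f : QS (S.rest E)} {δ : ℝ} (h0 : 0 < δ) (h1 : δ ≤ 1)
    (hA : (two1 (S := S.rest E) VA).qs f - (two2 (S := S.rest E) VA).qs f ∈ Id (two (S := S.rest E) VA) δ)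
    (hB : (two1 (S := S.rest E) VB).qs f - (two2 (S := S.rest E) VB).qs f ∈ Id (two (S := S.rest E) VB) δ) :
    dg f δ = ⊥ := by
  obtain ⟨gA, lA, eA⟩ := fn_of_two_rest hE hA
  obtain ⟨gB, lB, eB⟩ := fn_of_two_rest hE hB
  have h2 : QS.rest E hE (gB - gA) ∈ Id (S.rest E) δ := by
    rw [map_sub]
    have := (Id (S.rest E) δ).sub_mem eA eB
    have e : QS.rest E hE gB - QS.rest E hE gA = (f - QS.rest E hE gA) - (f - QS.rest E hE gB) := by ring
    rw [e]
    exact this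
  have h3 := hag E hE gB gA δ h0 h1 lB lA h2
  rw [← h3]
  exact dg_eq_of_sub_mem eB le_rfl h1

/-- DESCENT -/
theorem descend {T : Sp} (p : Pj T S) {f : QS T} {δ : ℝ}
    (h : (two1 (S := T) (α := fun k => (S.F k).Ω) p.π).qs f - (two2 (S := T) (α := fun k => (S.F k).Ω) p.π).qs f ∈
      Id (two (S := T) (α := fun k => (S.F k).Ω) p.π) δ) : ∃ f0 : QS S, f - p.qs f0 ∈ Id T δ := by
  classical
  obtain ⟨g, ⟨G, rfl, hG⟩, hg⟩ := lit_of_two h
  obtain ⟨K, hK, hGK⟩ := G.2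
  let G0 : TR S := ⟨fun k s => if hs : ∃ ω, (T.F k).μ ω ≠ 0 ∧ p.π k ω = s then TR.ev G k hs.choose else 0, K, by
    obtain ⟨a, b⟩ := hK
    refine ⟨a, ?_⟩
    have e : (fun k => Real.logb 2 (K k + 2) / (S.F k).n) = fun k => Real.logb 2 (K k + 2) / (T.F k).n := by
      funext k
      rw [p.hn]
    rw [e]
    exact b, by
    filter_upwards [hGK, hK.1] with k hk h0 s _
    show |(if hs : ∃ ω, (T.F k).μ ω ≠ 0 ∧ p.π k ω = s then TR.ev G k hs.choose else 0)| ≤ K k
    split_ifs with hs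
    · exact hk _ hs.choose_spec.1
    · rw [abs_zero]; exact h0⟩
  refine ⟨mk G0, ?_⟩
  rw [Pj.qs_mk]
  have e1 : mk G = mk (p.tr G0) := by
    rw [mk_eq]
    apply TR.Te.ag
    refine ⟨fun _ _ => True, Typ_true, ?_⟩
    filter_upwards [hG] with k hk ω hω _
    show TR.ev G k ω = (if hs : ∃ ω', (T.F k).μ ω' ≠ 0 ∧ p.π k ω' = p.π k ω then TR.ev G k hs.choose else 0)
    have hs : ∃ ω', (T.F k).μ ω' ≠ 0 ∧ p.π k ω' = p.π k ω := ⟨ω, hω, rfl⟩
    rw [dif_pos hs]
    refine hk _ _ hω hs.choose_spec.1 ?_ hs.choose_spec.2.symm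
    rw [p.hZ k _ _ hω hs.choose_spec.1, hs.choose_spec.2]
  rw [← e1]
  exact hg

theorem descend_eq {T : Sp} (p : Pj T S) {f : QS T}
    (h : (two1 (S := T) (α := fun k => (S.F k).Ω) p.π).qs f = (two2 (S := T) (α := fun k => (S.F k).Ω) p.π).qs f) :
    ∃ f0 : QS S, f = p.qs f0 := by
  obtain ⟨f0, h0⟩ := descend p (δ := 1) (f := f) (by rw [h, sub_self]; exact zero_mem _)
  exact ⟨f0, sub_eq_zero.mp (mem_Id_one.mp h0)⟩

/-- functions of the space agree in two copies over the space -/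
theorem two_base {T : Sp} (p : Pj T S) (f : QS S) :
    (two1 (S := T) (α := fun k => (S.F k).Ω) p.π).qs (p.qs f) =
      (two2 (S := T) (α := fun k => (S.F k).Ω) p.π).qs (p.qs f) := by
  obtain ⟨F, rfl⟩ := mk_surj f
  apply lit_two
  refine ⟨p.tr F, rfl, Eventually.of_forall fun k ω ω' _ _ _ h => ?_⟩
  show TR.ev F k (p.π k ω) = TR.ev F k (p.π k ω')
  rw [h]

/-- real variables have no atoms -/
theorem real_rich {y : QS S} (hy : H (dg y 1) = 1) {T : Sp} (p : Pj T S) (E : ∀ k, (T.F k).Ω → Prop)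
    (hE : 0 < ul (T.pr E)) {r : ℝ} (h0 : 0 < r) (h1 : r ≤ 1) :
    0 < h (restL E hE (p.map (dg y r))) (restL E hE (p.map ⊥)) := by
  have h2 : Rl (fun _ : Unit => p.qs y) ⊥ := by
    unfold Rl
    rw [h_bot]
    have : vd (fun _ : Unit => p.qs y) 1 = dg (p.qs y) 1 := by
      unfold vd
      simp
    rw [this, Pj.qs_dg, Pj.H_map, hy]
    simp
  have h3 := (h2.rest E hE).dg_one ()
  have h4 : h (dg (QS.rest E hE (p.qs y)) 1) (restL E hE ⊥) ≤
      h (dg (QS.rest E hE (p.qs y)) r) (restL E hE ⊥) + (1 - r) := by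
    have a1 := h_triangle (dg (QS.rest E hE (p.qs y)) 1) (dg (QS.rest E hE (p.qs y)) r) (restL E hE ⊥)
    have a2 : h (dg (QS.rest E hE (p.qs y)) 1) (dg (QS.rest E hE (p.qs y)) r ⊔ restL E hE ⊥) ≤ 1 - r :=
      (h_anti le_sup_left).trans (QS.h_dg_dg _ h1)
    linarith
  rw [h3] at h4
  rw [p.map_bot]
  rw [QS.rest_dg, Pj.qs_dg] at h4
  linarith

/-- DESCENT OF COEFFICIENTS: if a function of the space is `be + th y` on an extension, with coefficients of zero
entropy and `y` real, then the coefficients come from the space -/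
theorem descend_lin {T : Sp} (p : Pj T S) {f y : QS S} (hy : H (dg y 1) = 1) {be th : QS T} (zbe : dg be 1 = ⊥)
    (zth : dg th 1 = ⊥) (hf : p.qs f = be + th * p.qs y) :
    ∃ be0 th0 : QS S, be = p.qs be0 ∧ th = p.qs th0 ∧ dg be0 1 = ⊥ ∧ dg th0 1 = ⊥ ∧ f = be0 + th0 * y := by
  obtain ⟨P, hP⟩ : ∃ P, P = two1 (S := T) (α := fun k => (S.F k).Ω) p.π := ⟨_, rfl⟩
  obtain ⟨Q, hQ⟩ : ∃ Q, Q = two2 (S := T) (α := fun k => (S.F k).Ω) p.π := ⟨_, rfl⟩
  have bf : P.qs (p.qs f) = Q.qs (p.qs f) := by rw [hP, hQ]; exact two_base p f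
  have by' : P.qs (p.qs y) = Q.qs (p.qs y) := by rw [hP, hQ]; exact two_base p y
  have e1 := congrArg P.qs hf
  have e2 := congrArg Q.qs hf
  rw [map_add, map_mul] at e1 e2
  rw [← by', ← bf, e1] at e2
  have e3 : (P.qs be - Q.qs be) + (P.qs th - Q.qs th) * P.qs (p.qs y) = 0 := by
    linear_combination e2
  have z1 : ∀ {g : QS T}, dg g 1 = ⊥ → dg (P.qs g - Q.qs g) 1 ≤ ⊥ := by
    intro g hg
    refine (dg_sub_le _ _ le_rfl).trans (sup_le ?_ ?_)
    · rw [Pj.qs_dg, hg, P.map_bot]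
    · rw [Pj.qs_dg, hg, Q.map_bot]
  have hr : ∀ (T' : Sp) (p' : Pj T' (two (S := T) (α := fun k => (S.F k).Ω) p.π)) (E : ∀ k, (T'.F k).Ω → Prop)
      (hE : 0 < ul (T'.pr E)) (r : ℝ), 0 < r → r ≤ 1 →
      0 < h (restL E hE (p'.map (dg (P.qs (p.qs y)) r))) (restL E hE (p'.map ⊥)) := by
    intro T' p' E hE r h0 h1
    have := real_rich (y := P.qs (p.qs y)) (by rw [Pj.qs_dg, Pj.H_map, Pj.qs_dg, Pj.H_map, hy]) p' E hE h0 h1
    exact this
  obtain ⟨m0, m1⟩ := Pool.Agent.Helper19.TP.lin_small (A := ⊥) (z1 zbe) (z1 zth) hr le_rfl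
    (by rw [e3]; exact zero_mem _)
  rw [mem_Id_one, sub_eq_zero] at m0 m1
  obtain ⟨be0, hb⟩ := descend_eq p (f := be) (by rw [← hP, ← hQ]; exact m0)
  obtain ⟨th0, ht⟩ := descend_eq p (f := th) (by rw [← hP, ← hQ]; exact m1)
  have zz : ∀ {g : QS T} {g0 : QS S}, g = p.qs g0 → dg g 1 = ⊥ → dg g0 1 = ⊥ := by
    intro g g0 hg hz
    apply p.map_injective
    rw [p.map_bot, ← Pj.qs_dg, ← hg, hz]
  refine ⟨be0, th0, hb, ht, zz hb zbe, zz ht zth, p.qs_injective ?_⟩
  rw [map_add, map_mul, ← hb, ← ht]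
  exact hf

end

end Pool.Agent.Helper62.UR
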