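import Pool.Agent.Helper31.NSB.St
import Pool.Agent.Helper62.UR.Sw

/-! Row B_SWAP (helper30): the lattice form of the exchange of `R` and `z`. -/

set_option autoImplicit false

namespace Pool.Agent.Helper62.UR

open Finset Filter Topology Pool.Agent.Helper69.RK Pool.Agent.Helper31.EC Pool.Agent.Helper82.TP
open Pool.Agent.Helper79.NF Pool.Agent.Helper31.NSB

noncomputable section

/-- exchange, truncated digits, in an entropy lattice: `qB` base digits, `qb ≤ qB` -/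
theorem swap_lat' {L : Type*} [PM L] {q κ qB qb RA RB Rb za zb zB : L} {d e θ : ℝ}
    (hRA : RA ≤ κ ⊔ q) (hza : za ≤ κ ⊔ q) (hqB : qB ≤ q) (hqb : qb ≤ qB) (hRb : Rb ≤ RB) (hzab : za ≤ zB)
    (hzb : zb ≤ zB) (h1 : h RB RA ≤ d) (h2 : e ≤ h zb (κ ⊔ q)) (h3 : h zb (za ⊔ (qb ⊔ Rb)) ≤ θ) :
    h RB (RA ⊔ (qB ⊔ zB)) ≤ d - e + θ := by
  have e1 : h RB (RA ⊔ (qB ⊔ zB)) ≤ h RB (zb ⊔ (RA ⊔ (za ⊔ qB))) := by
    apply h_anti
    have a1 : zB ≤ RA ⊔ (qB ⊔ zB) := le_sup_right.trans le_sup_right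
    have a2 : qB ≤ RA ⊔ (qB ⊔ zB) := le_sup_left.trans le_sup_right
    exact sup_le (hzb.trans a1) (sup_le le_sup_left (sup_le (hzab.trans a1) a2))
  have e2 : I RB zb (RA ⊔ (za ⊔ qB)) = h RB (RA ⊔ (za ⊔ qB)) - h RB (zb ⊔ (RA ⊔ (za ⊔ qB))) := I_eq _ _ _
  have e4 : I RB zb (RA ⊔ (za ⊔ qB)) = h zb (RA ⊔ (za ⊔ qB)) - h zb (RB ⊔ (RA ⊔ (za ⊔ qB))) := I_eq' _ _ _
  have e5 : h RB (RA ⊔ (za ⊔ qB)) ≤ d := (h_anti le_sup_left).trans h1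
  have e6 : e ≤ h zb (RA ⊔ (za ⊔ qB)) := h2.trans (h_anti (sup_le hRA (sup_le hza (hqB.trans le_sup_right))))
  have e7 : h zb (RB ⊔ (RA ⊔ (za ⊔ qB))) ≤ θ := by
    refine (h_anti ?_).trans h3
    have a1 : RB ≤ RB ⊔ (RA ⊔ (za ⊔ qB)) := le_sup_left
    have a2 : za ≤ RB ⊔ (RA ⊔ (za ⊔ qB)) := (le_sup_left.trans le_sup_right).trans le_sup_right
    have a3 : qB ≤ RB ⊔ (RA ⊔ (za ⊔ qB)) := (le_sup_right.trans le_sup_right).trans le_sup_right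
    exact sup_le a2 (sup_le (hqb.trans a3) (hRb.trans a1))
  linarith

end

end Pool.Agent.Helper62.UR
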