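import Pool.Agent.Helper62.UR.Ds
import Pool.Agent.Helper24.T3.Tow

/-! THE AGREEMENT LABEL OF `R` IS A UNIT (82e (I3), CORNER4 (4.5)). The velocity of `R` is `F = be + al x + th a` with
coefficients of zero entropy. If `th` was small on an event then `R - be t - al y` would be an agreement label there,
but `R` is full over the base. -/

set_option autoImplicit false

namespace Pool.Agent.Helper62.UR

open Finset Filter Topology Pool.Agent.Helper69.RK Pool.Agent.Helper31.EC Pool.Agent.Helper82.TP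
open Pool.Agent.Helper25.EC Pool.Agent.Helper24.T3

noncomputable section

open Sp QS

variable {S : Sp}

/-- variables without atoms on events of extensions of restricted spaces -/
theorem rich_rest {x : QS S} {A : S.L}
    (hr : ∀ (T : Sp) (p : Pj T S) (E : ∀ k, (T.F k).Ω → Prop) (hE : 0 < ul (T.pr E)) (r : ℝ), 0 < r → r ≤ 1 →
      0 < h (restL E hE (p.map (dg x r))) (restL E hE (p.map A)))
    (E : ∀ k, (S.F k).Ω → Prop) (hE : 0 < ul (S.pr E)) (T : Sp) (p : Pj T (S.rest E)) (E' : ∀ k, (T.F k).Ω → Prop)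
    (hE' : 0 < ul (T.pr E')) (r : ℝ) (h0 : 0 < r) (h1 : r ≤ 1) :
    0 < h (restL E' hE' (p.map (dg (QS.rest E hE x) r))) (restL E' hE' (p.map (restL E hE A))) := by
  obtain ⟨W, q, D, hD, hh⟩ := tower E hE p E' hE'
  rw [QS.rest_dg, ← hh]
  exact hr W q D hD r h0 h1

/-- zero entropy functions are known to everybody -/
theorem zle {f : QS S} (h : dg f 1 = ⊥) {r : ℝ} (hr : r ≤ 1) (A : S.L) : dg f r ≤ A := by
  refine (dg_mono f hr).trans ?_
  rw [h]
  exact bot_le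

theorem z_sub {T : Sp} (P Q : Pj T S) {f : QS S} (h : dg f 1 = ⊥) : dg (P.qs f - Q.qs f) 1 ≤ ⊥ := by
  refine (dg_sub_le _ _ le_rfl).trans (sup_le ?_ ?_)
  · rw [Pj.qs_dg, h, P.map_bot]
  · rw [Pj.qs_dg, h, Q.map_bot]

theorem z_rest (E : ∀ k, (S.F k).Ω → Prop) (hE : 0 < ul (S.pr E)) {f : QS S} (h : dg f 1 = ⊥) :
    dg (QS.rest E hE f) 1 = ⊥ := by rw [QS.rest_dg, h, restL_bot]

theorem fn_lit {α : ℕ → Type} {V : ∀ k, (S.F k).Ω → α k} {f : QS S} (hf : f ∈ Fn V) : Lit V f := by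
  obtain ⟨g, h1, h2⟩ := hf
  exact ⟨g, h2, Eventually.of_forall fun k ω ω' _ _ hZ hV => h1 k ω ω' hV hZ⟩

/-- THE UNIT. `VA` = line variable, `VB` = point variable (with labels), `AgC` = agreement principle of the window
`0`. -/
theorem unit_th {α β : ℕ → Type} {VA : ∀ k, (S.F k).Ω → α k} {VB : ∀ k, (S.F k).Ω → β k} {t x y R F a cR κ0 κ1 : QS S}
    (ea : y = a + t * x) (ec : R = cR + t * F) (eF : F = κ0 + κ1 * x) (hag : AgC VB VA)
    (lx : Lit VA x) (la : Lit VA a) (lc : Lit VA cR) (lF : Lit VA F)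
    (lt : Lit VB t) (ly : Lit VB y) (lR : Lit VB R) (l0 : Lit VB κ0) (l1 : Lit VB κ1)
    (hx : ∀ (T : Sp) (p : Pj T S) (E : ∀ k, (T.F k).Ω → Prop) (hE : 0 < ul (T.pr E)) (r : ℝ), 0 < r → r ≤ 1 →
      0 < h (restL E hE (p.map (dg x r))) (restL E hE (p.map ⊥)))
    (hR : 1 ≤ h (dg R 1) (dg t 1 ⊔ dg y 1)) {th al be : QS S} (zal : dg al 1 = ⊥)
    (zbe : dg be 1 = ⊥) (h0 : κ0 = be + th * y) (h1 : κ1 = al - th * t) : IsUnit th := by
  by_contra hc
  obtain ⟨δ, hδ0, hδ1, E, hE, hs⟩ := Pool.Agent.Helper19.TP.exists_small hc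
  obtain ⟨r, hr⟩ : ∃ r : QS S →+* QS (S.rest E), r = QS.rest E hE := ⟨_, rfl⟩
  rw [← hr] at hs
  have eF2 : F = be + al * x + th * a := by
    rw [eF, h0, h1, ea]; ring
  obtain ⟨g, hg⟩ : ∃ g, g = r R - r be * r t - r al * r y := ⟨_, rfl⟩
  have eg : g = r cR - r al * r a + r t * r th * r a := by
    rw [hg, ec, eF2, ea]
    simp only [map_add, map_mul]
    ring
  have zr : ∀ {f : QS S}, dg f 1 = ⊥ → dg (r f) 1 = ⊥ := by
    intro f hf
    rw [hr]
    exact z_rest E hE hf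
  -- the line
  have hA : (two1 (S := S.rest E) VA).qs g - (two2 (S := S.rest E) VA).qs g ∈ Id (two (S := S.rest E) VA) δ := by
    obtain ⟨P, hP⟩ : ∃ P, P = two1 (S := S.rest E) VA := ⟨_, rfl⟩
    obtain ⟨Q, hQ⟩ : ∃ Q, Q = two2 (S := S.rest E) VA := ⟨_, rfl⟩
    rw [← hP, ← hQ]
    have lit : ∀ {f : QS S}, Lit VA f → P.qs (r f) = Q.qs (r f) := by
      intro f hf
      rw [hP, hQ, hr]
      exact lit_two (S := S.rest E) (V := VA) (lit_rest E hE hf)
    have ex := lit lx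
    have ea' := lit la
    have ec' := lit lc
    have eF' := lit lF
    have sP : P.qs (r th) ∈ Id (two (S := S.rest E) VA) δ := Pj_mem_Id P hs
    have sQ : Q.qs (r th) ∈ Id (two (S := S.rest E) VA) δ := Pj_mem_Id Q hs
    have e1 := congrArg P.qs (congrArg r eF2)
    have e2 := congrArg Q.qs (congrArg r eF2)
    simp only [map_add, map_mul] at e1 e2
    rw [← eF', ← ex, ← ea'] at e2
    have e3 : (P.qs (r be) - Q.qs (r be)) + (P.qs (r al) - Q.qs (r al)) * P.qs (r x) =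
        (Q.qs (r th) - P.qs (r th)) * P.qs (r a) := by linear_combination e2 - e1
    have m : (P.qs (r be) - Q.qs (r be)) + (P.qs (r al) - Q.qs (r al)) * P.qs (r x) ∈
        Id (two (S := S.rest E) VA) δ := by
      rw [e3]
      exact Ideal.mul_mem_right _ _ ((Id _ δ).sub_mem sQ sP)
    have hr' : ∀ (T' : Sp) (p' : Pj T' (two (S := S.rest E) VA)) (E' : ∀ k, (T'.F k).Ω → Prop)
        (hE' : 0 < ul (T'.pr E')) (ρ : ℝ), 0 < ρ → ρ ≤ 1 →
        0 < h (restL E' hE' (p'.map (dg (P.qs (r x)) ρ))) (restL E' hE' (p'.map ⊥)) := by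
      intro T' p' E' hE' ρ a0 a1
      have := rich_rest hx E hE T' (p'.comp P) E' hE' ρ a0 a1
      rw [Pj.comp_map, Pj.comp_map, restL_bot, P.map_bot] at this
      rw [Pj.qs_dg, hr]
      exact this
    obtain ⟨m0, m1⟩ := Pool.Agent.Helper19.TP.lin_small (A := ⊥) (z_sub P Q (zr zbe)) (z_sub P Q (zr zal)) hr' hδ1 m
    have e4 : P.qs g - Q.qs g = -((P.qs (r al) - Q.qs (r al)) * P.qs (r a)) +
        (P.qs (r t) * P.qs (r a)) * P.qs (r th) - (Q.qs (r t) * P.qs (r a)) * Q.qs (r th) := by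
      rw [eg]
      simp only [map_add, map_sub, map_mul]
      rw [← ec', ← ea']
      ring
    rw [e4]
    exact (Id _ δ).sub_mem ((Id _ δ).add_mem ((Id _ δ).neg_mem (Ideal.mul_mem_right _ _ m1))
      (Ideal.mul_mem_left _ _ sP)) (Ideal.mul_mem_left _ _ sQ)
  -- the point
  have hB : (two1 (S := S.rest E) VB).qs g - (two2 (S := S.rest E) VB).qs g ∈ Id (two (S := S.rest E) VB) δ := by
    obtain ⟨P, hP⟩ : ∃ P, P = two1 (S := S.rest E) VB := ⟨_, rfl⟩
    obtain ⟨Q, hQ⟩ : ∃ Q, Q = two2 (S := S.rest E) VB := ⟨_, rfl⟩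
    rw [← hP, ← hQ]
    have lit : ∀ {f : QS S}, Lit VB f → P.qs (r f) = Q.qs (r f) := by
      intro f hf
      rw [hP, hQ, hr]
      exact lit_two (S := S.rest E) (V := VB) (lit_rest E hE hf)
    have et := lit lt
    have ey := lit ly
    have eR := lit lR
    have e0 := lit l0
    have e1 := lit l1
    have sP : P.qs (r th) ∈ Id (two (S := S.rest E) VB) δ := Pj_mem_Id P hs
    have sQ : Q.qs (r th) ∈ Id (two (S := S.rest E) VB) δ := Pj_mem_Id Q hs
    rw [h0] at e0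
    rw [h1] at e1
    simp only [map_add, map_sub, map_mul] at e0 e1
    have e4 : P.qs g - Q.qs g = (P.qs (r y) * P.qs (r t)) * P.qs (r th) - (Q.qs (r y) * P.qs (r t)) * Q.qs (r th) -
        ((P.qs (r t) * P.qs (r y)) * P.qs (r th) - (Q.qs (r t) * P.qs (r y)) * Q.qs (r th)) := by
      rw [hg]
      simp only [map_sub, map_mul]
      rw [← eR, ← et, ← ey]
      rw [← ey] at e0
      rw [← et] at e1
      linear_combination (-P.qs (r t)) * e0 - P.qs (r y) * e1
    rw [e4]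
    exact (Id _ δ).sub_mem ((Id _ δ).sub_mem (Ideal.mul_mem_left _ _ sP) (Ideal.mul_mem_left _ _ sQ))
      ((Id _ δ).sub_mem (Ideal.mul_mem_left _ _ sP) (Ideal.mul_mem_left _ _ sQ))
  have hgz := agc_two hag hE hδ0 hδ1 hA hB
  -- `R` would be known to the level `δ`
  have k1 : dg (r R) δ ≤ restL E hE (dg t 1 ⊔ dg y 1) := by
    have e5 : r R = g + r be * r t + r al * r y := by rw [hg]; ring
    rw [e5]
    have bt : dg (r t) δ ≤ restL E hE (dg t 1 ⊔ dg y 1) := by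
      rw [hr, QS.rest_dg]
      exact restL_mono E hE ((dg_mono t hδ1).trans le_sup_left)
    have by' : dg (r y) δ ≤ restL E hE (dg t 1 ⊔ dg y 1) := by
      rw [hr, QS.rest_dg]
      exact restL_mono E hE ((dg_mono y hδ1).trans le_sup_right)
    refine dg_add_le' _ _ hδ1 (dg_add_le' _ _ hδ1 ?_ ?_) ?_
    · rw [hgz]; exact bot_le
    · exact dg_mul_le' _ _ hδ1 (zle (zr zbe) hδ1 _) bt
    · exact dg_mul_le' _ _ hδ1 (zle (zr zal) hδ1 _) by'
  have k2 : h (dg (r R) 1) (restL E hE (dg t 1 ⊔ dg y 1)) ≤ 1 - δ := by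
    refine (h_triangle' _ (dg (r R) δ) _).trans ?_
    rw [h_zero k1, add_zero]
    exact QS.h_dg_dg _ hδ1
  have k3 : h (restL E hE (dg R 1)) (restL E hE (dg t 1 ⊔ dg y 1)) = 1 := by
    apply Sp.h_rest_max E hE
    · exact le_antisymm (h_dg_le_one R _) hR
    · intro E' hE'
      rw [← QS.rest_dg]
      exact h_dg_le_one _ _
  rw [hr, QS.rest_dg, k3] at k2
  linarith

end

end Pool.Agent.Helper62.UR
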